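import Pool.Agent.W384.Fin
import Pool.Agent.W384.Count

/-!
Odd Hecke-Maass cusp forms of level one exist, all their quadratic twists vanish at the centre,
and so the proportion of non-vanishing quadratic twists tends to `0` and not to `1/2`.
-/

set_option autoImplicit false

open Filter Topology

namespace Pool.Agent.Results.MP_17f4cb_nt.OddMaassForms

open Pool.Agent.W384

theorem result :
    (∃ F : HeckeMaassCuspForm, F.IsOdd) ∧ Tendsto countAll atTop atTop ∧
    ∀ F : HeckeMaassCuspForm, F.IsOdd →
      (∀ E : QuadraticCharacter, ∃ L : ℂ → ℂ, IsTwistedLFunction F E L ∧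
        (∀ L' : ℂ → ℂ, IsTwistedLFunction F E L' → L' = L) ∧ L (1 / 2) = 0) ∧
      Tendsto (fun x : ℝ => (countNonvanishing F x : ℝ) / (countAll x : ℝ)) atTop (𝓝 0) := by
  refine ⟨exists_odd, tendsto_countAll, fun F hF => ⟨fun E => ?_, ?_⟩⟩
  · obtain ⟨L, hL, h0⟩ := vanish F hF E
    exact ⟨L, hL, fun L' hL' => isTwistedLFunction_unique hL' hL, h0⟩
  · have h : (fun x : ℝ => (countNonvanishing F x : ℝ) / (countAll x : ℝ)) = fun _ => 0 := by
      funext x
      rw [countNonvanishing_eq_zero F hF x]
      simp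
    rw [h]
    exact tendsto_const_nhds

end Pool.Agent.Results.MP_17f4cb_nt.OddMaassForms
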